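import Pool.Agent.H92.Ld.Sys0
import Pool.Agent.W66.LT

set_option autoImplicit false

/-!
# The last digits of a random sequence of digits
-/

namespace Pool.Agent.H92.Ld

open Finset Filter Topology MeasureTheory
open Pool.Agent.W66
open Pool.Agent.W66L
open Pool.Agent.H305R2 (roughPart)
open Pool.Agent.TH888.R (Sys Pt)

section

variable {Ω : Type*} [MeasurableSpace Ω] {μ : Measure Ω} [IsFiniteMeasure μ] {b : ℕ}
  {s : ℕ → Ω → ℕ}

/-- the law conditionally on the last digit being prime to `b` (after `law_all` of the starting file `Pool.Agent.W66.LT`) -/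
theorem pt_all (hb : 2 ≤ b) (hs : Full b μ s) (S : Set ℕ) : ∀ᵐ x ∂μ, (s 1 x).Coprime b →
    Pt (fun p => s p x) (Real.exp Real.eulerMascheroniConstant / Real.log b) S := by
  classical
  rcases eq_or_ne (μ Set.univ) 0 with h0 | h0
  · rw [Measure.measure_univ_eq_zero] at h0
    rw [h0]
    simp
  have hc : 0 < μ.real Set.univ := by
    rw [measureReal_def]
    exact ENNReal.toReal_pos h0 (measure_ne_top _ _)
  set A : Set Ω := {x | (s 1 x).Coprime b} with hA
  have hAm : MeasurableSet A := (hs.meas 1) (MeasurableSet.of_discrete (s := {m : ℕ | m.Coprime b}))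
  have hb0 : (0 : ℝ) < b := by exact_mod_cast (by omega : 0 < b)
  have hφ : (0 : ℝ) < b.totient := by exact_mod_cast Nat.totient_pos.2 (by omega)
  have hAr : μ.real A = μ.real Set.univ * (b.totient : ℝ) / b := by
    have e : A = ⋃ a ∈ (UU b 1), {x | s 1 x = a} := by
      ext x
      simp only [hA, Set.mem_setOf_eq, Set.mem_iUnion, exists_prop]
      constructor
      · intro h
        exact ⟨s 1 x, mem_UU.2 ⟨hs.lt hb 1 x, h⟩, rfl⟩
      · rintro ⟨a, ha, h⟩
        rw [h]
        exact (mem_UU.1 ha).2
    rw [e, measureReal_biUnion_finset]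
    · have h1 : ∀ a ∈ UU b 1, μ.real {x | s 1 x = a} = μ.real Set.univ / (b : ℝ) ^ 1 := by
        intro a ha
        exact hs.unif 1 a (mem_UU.1 ha).1
      rw [Finset.sum_congr rfl h1, Finset.sum_const, nsmul_eq_mul, card_UU hb le_rfl, pow_one, pow_one]
      ring
    · intro a _ a' _ haa
      rw [Function.onFun, Set.disjoint_left]
      intro x hx hx'
      exact haa (hx.symm.trans hx')
    · intro a _
      exact (hs.meas 1) (measurableSet_singleton a)
  have hApos : 0 < μ.real A := by rw [hAr]; positivity
  have hA0 : μ A ≠ 0 := by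
    intro h
    rw [measureReal_def, h] at hApos
    simp at hApos
  haveI : IsProbabilityMeasure (ProbabilityTheory.cond μ A) :=
    ProbabilityTheory.cond_isProbabilityMeasure hA0
  have hlow : Low b (ProbabilityTheory.cond μ A) s := by
    refine ⟨hs.meas, hs.compat, fun n hn a ha hac => ?_⟩
    have hsub : {x | s n x = a} ⊆ A := by
      intro x hx
      simp only [hA, Set.mem_setOf_eq]
      rw [← hs.mod_b hb x hn, Set.mem_setOf_eq.mp hx]
      rw [Nat.Coprime, (Nat.mod_modEq a b).gcd_eq]
      exact hac
    have h1 : (ProbabilityTheory.cond μ A).real {x | s n x = a} =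
        (μ.real A)⁻¹ * μ.real {x | s n x = a} := by
      rw [measureReal_def, ProbabilityTheory.cond_apply hAm, Set.inter_eq_self_of_subset_right hsub,
        ENNReal.toReal_mul, ENNReal.toReal_inv]
      rfl
    rw [h1, hs.unif n a ha, hAr, tot_pow hb hn]
    field_simp
  have h := pt_low hb hlow S
  have h2 : ∀ᵐ x ∂(μ.restrict A), Pt (fun p => s p x) (Real.exp Real.eulerMascheroniConstant / Real.log b) S := by
    unfold ProbabilityTheory.cond at h
    rwa [Measure.ae_ennreal_smul_measure_iff] at h
    exact ENNReal.inv_ne_zero.2 (measure_ne_top _ _)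
  rwa [ae_restrict_iff' hAm] at h2

end

end Pool.Agent.H92.Ld
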