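import Pool.Agent.H92.Ld.Mean0

set_option autoImplicit false

/-!
# The mean of the indicator of a prime rough part, error term `O(1/q)`
-/

open Filter Topology
open scoped Real

namespace Pool.Agent.H92.Ld

open Pool.Agent.W66
open Pool.Agent.W66L
open Pool.Agent.H305R2 (ZZ VV ZZ_nonneg VV_nonneg log_nat_tendsto)
open Pool.Agent.TH888.R (ZZ_rate VV_rate)

/-- the prime number theorem, in the form needed here -/
lemma pi_near : ∃ C : ℝ, 0 < C ∧ ∀ x : ℝ, 2 ≤ x →
    |(Nat.primeCounting ⌊x⌋₊ : ℝ) * Real.log x / x - 1| ≤ C / Real.log x := by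
  obtain ⟨C, hC, h⟩ := Pool.Agent.H381R2.HR.Asm.pnt2
  refine ⟨C, hC, fun x hx => ?_⟩
  have hx0 : 0 < x := by linarith
  have hl : 0 < Real.log x := Real.log_pos (by linarith)
  have h1 := h x hx
  have e : (Nat.primeCounting ⌊x⌋₊ : ℝ) * Real.log x / x - 1 =
      ((Nat.primeCounting ⌊x⌋₊ : ℝ) - x / Real.log x) * (Real.log x / x) := by
    field_simp
  rw [e, abs_mul, abs_of_pos (show 0 < Real.log x / x by positivity)]
  calc |(Nat.primeCounting ⌊x⌋₊ : ℝ) - x / Real.log x| * (Real.log x / x) ≤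
        C * (x / Real.log x ^ 2) * (Real.log x / x) := mul_le_mul_of_nonneg_right h1 (by positivity)
    _ = _ := by field_simp

/-- **The mean with error term.** -/
theorem AA_rate {b : ℕ} (hb : 2 ≤ b) : ∃ K : ℝ, 0 < K ∧ ∀ᶠ q : ℕ in atTop,
    |AA b q / (b : ℝ) ^ q - Real.exp Real.eulerMascheroniConstant * ((b.totient : ℝ) / b) / Real.log b *
      (Real.log q / q)| ≤ K / q := by
  obtain ⟨C, hC, hπ⟩ := pi_near
  obtain ⟨C1, hC1, hV⟩ := VV_rate
  obtain ⟨C2, hC2, hZ⟩ := ZZ_rate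
  obtain ⟨lb, hlb⟩ : ∃ lb, lb = Real.log b := ⟨_, rfl⟩
  have hlb0 : 0 < lb := by rw [hlb]; exact Real.log_pos (by exact_mod_cast hb)
  obtain ⟨G, hG⟩ : ∃ G, G = Real.exp Real.eulerMascheroniConstant := ⟨_, rfl⟩
  have hG0 : 0 < G := by rw [hG]; exact Real.exp_pos _
  obtain ⟨ρ, hρ⟩ : ∃ ρ, ρ = (b.totient : ℝ) / b := ⟨_, rfl⟩
  have hρ0 : 0 < ρ := by rw [hρ]; exact tot_ratio_pos hb
  obtain ⟨D0, hD0⟩ : ∃ D0, D0 = 4 * C + 2 / lb * (C2 + 1) := ⟨_, rfl⟩
  have hD0p : 0 < D0 := by rw [hD0]; positivity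
  obtain ⟨L0, hL0⟩ : ∃ L0, L0 = 4 * D0 + 9 + 8 / (D0 * lb) + 8 / D0 + 4 / lb := ⟨_, rfl⟩
  rw [← hlb, ← hG, ← hρ]
  refine ⟨(8 * D0 * G * ρ + 3 * ρ * C1) / lb + 1 / lb + 2, by positivity, ?_⟩
  filter_upwards [log_nat_tendsto.eventually_ge_atTop L0, eventually_ge_atTop (b + 3)] with q hq hqb
  obtain ⟨l, hl⟩ : ∃ l, l = Real.log (q : ℝ) := ⟨_, rfl⟩
  rw [← hl] at hq ⊢
  have hq3 : 3 ≤ q := by omega
  have hq0 : (0 : ℝ) < q := by exact_mod_cast (by omega : 0 < q)
  have hq1 : (1 : ℝ) ≤ q := by exact_mod_cast (by omega : 1 ≤ q)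
  have g1 : 0 < 8 / (D0 * lb) := by positivity
  have g2 : 0 < 8 / D0 := by positivity
  have g3 : 0 < 4 / lb := by positivity
  have hl8 : 8 ≤ l := by linarith
  have hl0 : 0 < l := by linarith
  have hexpl : Real.exp l = q := by rw [hl]; exact Real.exp_log hq0
  obtain ⟨δ, hδ⟩ : ∃ δ, δ = D0 / l := ⟨_, rfl⟩
  have hδ0 : 0 < δ := by rw [hδ]; positivity
  have hδ4 : δ < 1 / 4 := by
    rw [hδ, div_lt_iff₀ hl0]
    linarith
  have hδl : δ * l = D0 := by rw [hδ]; field_simp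
  -- exponentials
  have hsq : l ^ 2 / 8 ≤ Real.exp (l / 2) := by
    have := Real.quadratic_le_exp_of_nonneg (show 0 ≤ l / 2 by positivity)
    nlinarith
  have hE13 : 13 ≤ Real.exp (l / 2) := by
    have h1 := Real.quadratic_le_exp_of_nonneg (show 0 ≤ l / 2 by positivity)
    nlinarith
  have hE2 : Real.exp (l / 2) * Real.exp (l / 2) = q := by
    rw [← Real.exp_add, ← hexpl]
    congr 1
    ring
  have hl2 : l ^ 2 ≤ q := by
    rw [← hE2]
    nlinarith
  have hδq : Real.exp (l / 2) ≤ δ * (lb * q) := by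
    have h1 : 8 ≤ D0 * lb * l := by
      have : 8 / (D0 * lb) ≤ l := by linarith
      rw [div_le_iff₀ (by positivity)] at this
      linarith
    have h2 : l ≤ D0 * lb * Real.exp (l / 2) := by
      have h3 : D0 * lb * (l ^ 2 / 8) ≤ D0 * lb * Real.exp (l / 2) := mul_le_mul_of_nonneg_left hsq (by positivity)
      nlinarith
    rw [hδ, div_mul_eq_mul_div, le_div_iff₀ hl0, ← hE2]
    have h4 := mul_le_mul_of_nonneg_left h2 (Real.exp_pos (l / 2)).le
    linarith
  have hinv : 1 / δ ≤ Real.exp (l / 2) := by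
    have h1 : 8 ≤ D0 * l := by
      have : 8 / D0 ≤ l := by linarith
      rw [div_le_iff₀ (by positivity)] at this
      linarith
    rw [hδ, one_div_div, div_le_iff₀ hD0p]
    have h3 : D0 * (l ^ 2 / 8) ≤ D0 * Real.exp (l / 2) := mul_le_mul_of_nonneg_left hsq (by positivity)
    nlinarith
  obtain ⟨x0, hx0⟩ : ∃ x0, x0 = Real.exp (l / 4 + 1) := ⟨_, rfl⟩
  have hx0q : x0 + 1 ≤ δ * (lb * q) := by
    refine le_trans ?_ hδq
    have h1 : Real.exp (l / 2) = Real.exp (l / 4) * Real.exp (l / 4) := by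
      rw [← Real.exp_add]; congr 1; ring
    have h2 : 5 ≤ Real.exp (l / 4) := by
      have := Real.quadratic_le_exp_of_nonneg (show 0 ≤ l / 4 by positivity)
      nlinarith
    rw [hx0, Real.exp_add, h1]
    have h3 := Real.exp_one_lt_d9
    nlinarith
  have hπx : ∀ x ≥ x0, |(Nat.primeCounting ⌊x⌋₊ : ℝ) * Real.log x / x - 1| < δ := by
    intro x hx
    have h1 : 2 ≤ x := by
      refine le_trans ?_ hx
      rw [hx0]
      have := Real.add_one_le_exp (l / 4 + 1)
      linarith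
    have h2 : l / 4 + 1 ≤ Real.log x := by
      rw [Real.le_log_iff_exp_le (by linarith), ← hx0]
      exact hx
    refine lt_of_le_of_lt (hπ x h1) ?_
    rw [hδ, div_lt_div_iff₀ (by linarith) hl0]
    have h3 : 4 * C ≤ D0 := by
      rw [hD0]
      have : 0 < 2 / lb * (C2 + 1) := by positivity
      linarith
    have h4 : D0 * (l / 4 + 1) ≤ D0 * Real.log x := mul_le_mul_of_nonneg_left h2 hD0p.le
    nlinarith
  have hup := AA_up hb hδ0 hδ4 (x0 := x0) (fun x hx => by linarith [(abs_lt.1 (hπx x hx)).2]) (q := q)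
    (by
      rw [← hlb]
      exact max_le hx0q (by linarith)) (by omega)
  have hlow := AA_low hb hδ0 hδ4 (x0 := x0) (fun x hx => by linarith [(abs_lt.1 (hπx x hx)).1]) (q := q)
    (by
      rw [← hlb]
      exact max_le (max_le hx0q (by linarith)) (hinv.trans hδq)) (by omega)
  rw [← hlb] at hup hlow
  rw [VB_eq hb (by omega), ← hρ] at hup hlow
  obtain ⟨hV1, hV2⟩ := abs_le.1 (hV q (by omega))
  rw [← hG, ← hl] at hV1 hV2
  have hZq := hZ q (by omega)
  rw [← hl] at hZq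
  have hVV0 := VV_nonneg q
  have hlq0 : 0 < lb * q := by positivity
  have hE : Real.exp (-(δ * (lb * q) / 2)) * ZZ q ≤ 1 / q := by
    have h8 : δ * (lb * q) / 2 ≥ (C2 + 1) * (q / l) := by
      have h9 : 2 / lb * (C2 + 1) ≤ D0 := by rw [hD0]; linarith
      have h10 : 2 * (C2 + 1) ≤ D0 * lb := by
        have := mul_le_mul_of_nonneg_right h9 hlb0.le
        have e : 2 / lb * (C2 + 1) * lb = 2 * (C2 + 1) := by field_simp
        linarith
      have e : δ * (lb * q) / 2 = D0 * lb / 2 * (q / l) := by rw [hδ]; ring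
      rw [e]
      exact mul_le_mul_of_nonneg_right (by linarith) (by positivity)
    calc Real.exp (-(δ * (lb * q) / 2)) * ZZ q ≤ Real.exp (-((C2 + 1) * (q / l))) * Real.exp (C2 * (q / l)) :=
          mul_le_mul (Real.exp_le_exp.2 (neg_le_neg h8)) hZq (ZZ_nonneg q) (Real.exp_pos _).le
      _ = Real.exp (-(q / l)) := by rw [← Real.exp_add]; congr 1; ring
      _ ≤ Real.exp (-l) := by
          refine Real.exp_le_exp.2 (neg_le_neg ?_)
          rw [le_div_iff₀ hl0, ← sq]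
          exact hl2
      _ = 1 / q := by rw [Real.exp_neg, hexpl, one_div]
  have hE0 : 0 ≤ Real.exp (-(δ * (lb * q) / 2)) * ZZ q := mul_nonneg (Real.exp_pos _).le (ZZ_nonneg q)
  have hT : (q : ℝ) * Real.exp (-((1 - δ) * (lb * q))) ≤ 1 / q := by
    have h1 : 2 * l ≤ (1 - δ) * (lb * q) := by
      have h2 : 4 ≤ lb * l := by
        have : 4 / lb ≤ l := by linarith
        rw [div_le_iff₀ hlb0] at this
        linarith
      have h3 : lb * l ^ 2 ≤ lb * q := mul_le_mul_of_nonneg_left hl2 hlb0.le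
      have h4 : 4 * l ≤ lb * l ^ 2 := by nlinarith
      have h5 : δ * (lb * q) ≤ 1 / 4 * (lb * q) := mul_le_mul_of_nonneg_right hδ4.le hlq0.le
      linarith
    calc (q : ℝ) * Real.exp (-((1 - δ) * (lb * q))) ≤ q * Real.exp (-(2 * l)) :=
          mul_le_mul_of_nonneg_left (Real.exp_le_exp.2 (neg_le_neg h1)) hq0.le
      _ = 1 / q := by
          have e : Real.exp (-(2 * l)) = 1 / (q * q) := by
            rw [Real.exp_neg, two_mul, Real.exp_add, hexpl, one_div]
          rw [e]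
          field_simp
  have hbq : (0 : ℝ) < (b : ℝ) ^ q := by
    have : (0 : ℝ) < b := by exact_mod_cast (by omega : 0 < b)
    positivity
  have hup2 : AA b q / (b : ℝ) ^ q ≤ (1 + 8 * δ) * (ρ * (G * l + C1)) / (lb * q) + 1 / q := by
    rw [div_le_iff₀ hbq]
    refine hup.trans ?_
    rw [mul_comm ((b : ℝ) ^ q)]
    apply mul_le_mul_of_nonneg_right _ hbq.le
    refine add_le_add ?_ hE
    have h1 : (1 + δ) / ((1 - 2 * δ) * (lb * q)) ≤ (1 + 8 * δ) / (lb * q) := by
      rw [div_le_div_iff₀ (mul_pos (by linarith) hlq0) hlq0]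
      have h2 : (1 + δ) ≤ (1 + 8 * δ) * (1 - 2 * δ) := by nlinarith
      nlinarith [mul_le_mul_of_nonneg_right h2 hlq0.le]
    calc (1 + δ) / ((1 - 2 * δ) * (lb * q)) * (VV q * ρ) ≤ (1 + 8 * δ) / (lb * q) * ((G * l + C1) * ρ) := by
          apply mul_le_mul h1 (mul_le_mul_of_nonneg_right (by linarith) hρ0.le) (by positivity) (by positivity)
      _ = _ := by ring
  have hlow2 : (1 - 2 * δ) * (ρ * (G * l - C1)) / (lb * q) - 1 / lb * (1 / q) - 1 / q ≤ AA b q / (b : ℝ) ^ q := by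
    rw [le_div_iff₀ hbq]
    refine le_trans ?_ hlow
    rw [mul_comm ((b : ℝ) ^ q)]
    apply mul_le_mul_of_nonneg_right _ hbq.le
    have h1 : (1 - 2 * δ) * (ρ * (G * l - C1)) / (lb * q) - 1 / lb * (1 / q) ≤
        (1 - δ) ^ 2 / (lb * q) * (VV q * ρ - Real.exp (-(δ * (lb * q) / 2)) * ZZ q) := by
      have h2 : (1 - δ) ^ 2 / (lb * q) * (VV q * ρ) ≥ (1 - 2 * δ) * (ρ * (G * l - C1)) / (lb * q) := by
        have h3 : (1 - 2 * δ) * (ρ * (G * l - C1)) ≤ (1 - δ) ^ 2 * (VV q * ρ) := by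
          have h4 : ρ * (G * l - C1) ≤ VV q * ρ := by nlinarith
          have h5 : (1 - 2 * δ) ≤ (1 - δ) ^ 2 := by nlinarith
          have h6 : 0 ≤ VV q * ρ := by positivity
          calc (1 - 2 * δ) * (ρ * (G * l - C1)) ≤ (1 - 2 * δ) * (VV q * ρ) :=
                mul_le_mul_of_nonneg_left h4 (by linarith)
            _ ≤ _ := mul_le_mul_of_nonneg_right h5 h6
        have e : (1 - δ) ^ 2 / (lb * q) * (VV q * ρ) = (1 - δ) ^ 2 * (VV q * ρ) / (lb * q) := by ring
        rw [e]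
        exact div_le_div_of_nonneg_right h3 hlq0.le
      have h7 : (1 - δ) ^ 2 / (lb * q) * (Real.exp (-(δ * (lb * q) / 2)) * ZZ q) ≤ 1 / lb * (1 / q) := by
        have h8 : (1 - δ) ^ 2 ≤ 1 := by nlinarith
        have h9 : Real.exp (-(δ * (lb * q) / 2)) * ZZ q ≤ 1 := hE.trans (by rw [div_le_one hq0]; exact hq1)
        calc (1 - δ) ^ 2 / (lb * q) * (Real.exp (-(δ * (lb * q) / 2)) * ZZ q) ≤ 1 / (lb * q) * 1 :=
              mul_le_mul (div_le_div_of_nonneg_right h8 hlq0.le) h9 hE0 (by positivity)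
          _ = _ := by field_simp
      have e : (1 - δ) ^ 2 / (lb * q) * (VV q * ρ - Real.exp (-(δ * (lb * q) / 2)) * ZZ q) =
          (1 - δ) ^ 2 / (lb * q) * (VV q * ρ) - (1 - δ) ^ 2 / (lb * q) * (Real.exp (-(δ * (lb * q) / 2)) * ZZ q) := by ring
      rw [e]
      linarith
    linarith
  -- conclusion
  have e1 : (1 + 8 * δ) * (ρ * (G * l + C1)) / (lb * q) = G * ρ / lb * (l / q) +
      (8 * (δ * l) * G * ρ + (1 + 8 * δ) * ρ * C1) / lb * (1 / q) := by
    field_simp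
    ring
  have e2 : (1 - 2 * δ) * (ρ * (G * l - C1)) / (lb * q) = G * ρ / lb * (l / q) -
      (2 * (δ * l) * G * ρ + (1 - 2 * δ) * ρ * C1) / lb * (1 / q) := by
    field_simp
    ring
  rw [hδl] at e1 e2
  have h1q : 0 < 1 / (q : ℝ) := by positivity
  have m1 : (8 * D0 * G * ρ + (1 + 8 * δ) * ρ * C1) / lb * (1 / q) ≤
      (8 * D0 * G * ρ + 3 * ρ * C1) / lb * (1 / q) := by
    apply mul_le_mul_of_nonneg_right _ h1q.le
    apply div_le_div_of_nonneg_right _ hlb0.le
    have : (1 + 8 * δ) * (ρ * C1) ≤ 3 * (ρ * C1) := mul_le_mul_of_nonneg_right (by linarith) (by positivity)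
    linarith
  have m2 : (2 * D0 * G * ρ + (1 - 2 * δ) * ρ * C1) / lb * (1 / q) ≤
      (8 * D0 * G * ρ + 3 * ρ * C1) / lb * (1 / q) := by
    apply mul_le_mul_of_nonneg_right _ h1q.le
    apply div_le_div_of_nonneg_right _ hlb0.le
    have h3 : (1 - 2 * δ) * (ρ * C1) ≤ 3 * (ρ * C1) := mul_le_mul_of_nonneg_right (by linarith) (by positivity)
    have h4 : 0 ≤ D0 * G * ρ := by positivity
    linarith
  have eK : ((8 * D0 * G * ρ + 3 * ρ * C1) / lb + 1 / lb + 2) / (q : ℝ) =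
      (8 * D0 * G * ρ + 3 * ρ * C1) / lb * (1 / q) + 1 / lb * (1 / q) + 2 * (1 / q) := by ring
  have hlbq : 0 < 1 / lb * (1 / (q : ℝ)) := by positivity
  rw [eK, abs_le]
  constructor <;> linarith

/-- the mean over the reduced residues -/
theorem mq_rate {b : ℕ} (hb : 2 ≤ b) : ∃ K : ℝ, 0 < K ∧ ∀ᶠ q : ℕ in atTop,
    |mq b q - Real.exp Real.eulerMascheroniConstant / Real.log b * (Real.log q / q)| ≤ K / q := by
  obtain ⟨K, hK, h⟩ := AA_rate hb
  have hρ0 := tot_ratio_pos hb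
  refine ⟨K / ((b.totient : ℝ) / b), by positivity, ?_⟩
  filter_upwards [h, eventually_ge_atTop 1] with q hq hq1
  have hb0 : (0 : ℝ) < b := by exact_mod_cast (by omega : 0 < b)
  have hφ : (0 : ℝ) < b.totient := by exact_mod_cast Nat.totient_pos.2 (by omega)
  have hlb0 : 0 < Real.log b := Real.log_pos (by exact_mod_cast hb)
  have hq0 : (0 : ℝ) < q := by exact_mod_cast hq1
  have e : mq b q - Real.exp Real.eulerMascheroniConstant / Real.log b * (Real.log q / q) =
      (AA b q / (b : ℝ) ^ q - Real.exp Real.eulerMascheroniConstant * ((b.totient : ℝ) / b) / Real.log b *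
      (Real.log q / q)) / ((b.totient : ℝ) / b) := by
    unfold mq
    rw [tot_pow hb hq1]
    field_simp
  rw [e, abs_div, abs_of_pos hρ0, div_div, mul_comm ((b.totient : ℝ) / b), ← div_div]
  exact div_le_div_of_nonneg_right hq hρ0.le

end Pool.Agent.H92.Ld
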