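import Pool.Agent.H92.Ld.Mean1
import Pool.Agent.TH888.R.Asy

set_option autoImplicit false

/-!
# The last digits: a system of nearly independent events
-/

namespace Pool.Agent.H92.Ld

open Finset Filter Topology MeasureTheory
open Pool.Agent.W66
open Pool.Agent.W66L
open Pool.Agent.H305R2 (roughPart roughPart_prime SM SM_pos SMz mem_SMz ZZ VV sum_rough_eq sum_le_VV
  tail_le ZZ_le_exp ZZ_nonneg VV_nonneg VV_tendsto log_nat_tendsto)
open Pool.Agent.TH888.R (Sys Pt wt wt_nonneg row_set)

/-- the row sums of the correlation matrix over sets of primes (after `CO_row` of the starting file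
`Pool.Agent.W66.LR`) -/
theorem CO_rows {b : ℕ} (hb : 2 ≤ b) : ∃ κ C : ℝ, 0 < κ ∧ 0 < C ∧ ∃ P : ℕ, 3 ≤ P ∧ ∀ q ≥ P, ∀ T : Finset ℕ,
    (∀ p ∈ T, p.Prime ∧ P ≤ p ∧ p < q) → ∑ p ∈ T, |CO b p q| ≤
      C * ((Real.log q / q) * (1 + ∑ p ∈ T.filter (fun p : ℕ => κ * q / Real.log q < (p : ℝ)), Real.log p / p)) := by
  classical
  obtain ⟨κ, K1, hκ, hK1, hfar⟩ := rough_L1 hb
  obtain ⟨P1, hP1⟩ := eventually_atTop.1 hfar
  obtain ⟨K2, hK2, hmid⟩ := mid_count hb
  obtain ⟨P2, hP2⟩ := eventually_atTop.1 hmid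
  obtain ⟨K3, hK3, hnear⟩ := near_count hb
  obtain ⟨P3, hP3⟩ := eventually_atTop.1 hnear
  obtain ⟨K4, hK4, hmq⟩ := mq_le hb
  obtain ⟨P4, hP4⟩ := eventually_atTop.1 hmq
  have hρ := tot_ratio_pos hb
  set ρ := (b.totient : ℝ) / b with hρdef
  set J : ℕ → ℕ → ℝ := fun p q => if 1 ≤ p then CO b p q else 0 with hJ
  set K := K1 / ρ + (K2 / ρ + K4 ^ 2) + (K3 / ρ + K4 + K4 ^ 2) with hK
  have hKpos : 0 < K := by positivity
  have hw0 : ∀ m : ℕ, 0 ≤ Real.log m / m := fun m =>
    div_nonneg (Real.log_natCast_nonneg m) (Nat.cast_nonneg m)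
  have hanti : ∀ p q : ℕ, 3 ≤ p → p ≤ q → Real.log q / q ≤ Real.log p / p := by
    intro p q hp hpq
    apply Real.log_div_self_antitoneOn
    · show Real.exp 1 ≤ (p : ℝ)
      have : (3 : ℝ) ≤ p := by exact_mod_cast hp
      linarith [Real.exp_one_lt_d9]
    · show Real.exp 1 ≤ (q : ℝ)
      have : (3 : ℝ) ≤ q := by exact_mod_cast hp.trans hpq
      linarith [Real.exp_one_lt_d9]
    · exact_mod_cast hpq
  obtain ⟨C, hC, P', hP', hP3', hrow⟩ := row_set (κ := κ) (K := K) hκ hKpos hb J
    (P1 + P2 + P3 + P4 + 3)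
    (by
      intro q hq p hp
      have hlq : 0 ≤ Real.log q / (q : ℝ) ^ 2 :=
        div_nonneg (Real.log_natCast_nonneg q) (by positivity)
      simp only [hJ]
      split_ifs with hp1
      · haveI : NeZero b := ⟨by omega⟩
        obtain ⟨h1, h2⟩ := hP1 q (by omega) ⌊κ * q / Real.log q⌋₊ rfl
        have hpk : p ≤ ⌊κ * q / Real.log q⌋₊ := Nat.le_floor hp
        have h3 := far_sum (p := p) hb hp1 hpk h1
        have hφ := tot_pow_pos hb q
        unfold CO
        rw [abs_div, abs_of_pos hφ, div_le_iff₀ hφ, tot_pow hb (by omega)]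
        refine (h3.trans h2).trans ?_
        rw [← hρdef]
        have hKK : K1 ≤ K * ρ := by
          have : K1 / ρ ≤ K := by rw [hK]; have : 0 < K2 / ρ := by positivity
                                  have : 0 < K3 / ρ := by positivity
                                  nlinarith [sq_nonneg K4]
          rwa [div_le_iff₀ hρ] at this
        calc K1 * ((b : ℝ) ^ q * (Real.log q / (q : ℝ) ^ 2)) ≤
            (K * ρ) * ((b : ℝ) ^ q * (Real.log q / (q : ℝ) ^ 2)) :=
              mul_le_mul_of_nonneg_right hKK (by positivity)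
          _ = _ := by ring
      · rw [abs_zero]; exact mul_nonneg hKpos.le hlq)
    (by
      intro p hp q hq
      have hp1 : 1 ≤ p := by omega
      simp only [hJ]
      rw [if_pos hp1, CO_eq hb hp1 (by omega), tot_pow hb (by omega), ← hρdef]
      have h1 := hP2 p (by omega) q hq
      have h2 := hP4 p (by omega)
      have h3 := hP4 q (by omega)
      have hm1 := mq_nonneg b p
      have hm2 := mq_nonneg b q
      have hwp := hw0 p
      have hwq := hw0 q
      have hJC0 : 0 ≤ JC b p q :=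
        Finset.sum_nonneg fun m _ => mul_nonneg (rpi_nonneg _ _) (rpi_nonneg _ _)
      have hbq : (0 : ℝ) < (b : ℝ) ^ q := by positivity
      have h4 : JC b p q / ((b : ℝ) ^ q * ρ) ≤ K2 / ρ * ((Real.log p / p) * (Real.log q / q)) := by
        rw [div_le_iff₀ (by positivity)]
        refine h1.trans (le_of_eq ?_)
        field_simp
      have h4' : 0 ≤ JC b p q / ((b : ℝ) ^ q * ρ) := by positivity
      have h5 : mq b p * mq b q ≤ K4 ^ 2 * ((Real.log p / p) * (Real.log q / q)) := by
        calc mq b p * mq b q ≤ (K4 * (Real.log p / p)) * (K4 * (Real.log q / q)) :=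
              mul_le_mul h2 h3 hm2 (by positivity)
          _ = _ := by ring
      have h5' : 0 ≤ mq b p * mq b q := mul_nonneg hm1 hm2
      have h6 : 0 ≤ (Real.log p / p) * (Real.log q / q) := mul_nonneg hwp hwq
      have hKK : K2 / ρ + K4 ^ 2 ≤ K := by
        rw [hK]
        have : 0 < K1 / ρ := by positivity
        have : 0 < K3 / ρ := by positivity
        nlinarith [sq_nonneg K4]
      calc |JC b p q / ((b : ℝ) ^ q * ρ) - mq b p * mq b q| ≤
          JC b p q / ((b : ℝ) ^ q * ρ) + mq b p * mq b q := by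
            rw [abs_le]; constructor <;> linarith
        _ ≤ (K2 / ρ + K4 ^ 2) * ((Real.log p / p) * (Real.log q / q)) := by linarith
        _ ≤ _ := mul_le_mul_of_nonneg_right hKK h6)
    (by
      intro p hp q hpq hq2
      have hp1 : 1 ≤ p := by omega
      simp only [hJ]
      rw [if_pos hp1, CO_eq hb hp1 hpq.le]
      have h1 := hP3 p (by omega) q hpq hq2
      have h2 := hP4 p (by omega)
      have h3 := hP4 q (by omega)
      have hm1 := mq_nonneg b p
      have hm2 := mq_nonneg b q
      have hwp := hw0 p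
      have hwq := hw0 q
      have hJC0 : 0 ≤ JC b p q :=
        Finset.sum_nonneg fun m _ => mul_nonneg (rpi_nonneg _ _) (rpi_nonneg _ _)
      have hφ := tot_pow_pos hb q
      have hφp := tot_pow_pos hb p
      have hbqp : (0 : ℝ) < (b : ℝ) ^ (q - p) := by
        have : (0 : ℝ) < b := by exact_mod_cast (by omega : 0 < b)
        positivity
      have e1 : AA b p / ((b ^ q).totient : ℝ) = ((b : ℝ) ^ (q - p))⁻¹ * mq b p := by
        rw [tot_lift hb hp1 hpq.le]
        unfold mq
        field_simp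
      have h4 : JC b p q / ((b ^ q).totient : ℝ) ≤
          ((b : ℝ) ^ (q - p))⁻¹ * mq b p + K3 / ρ * (Real.log p / p) ^ 2 := by
        rw [← e1, div_le_iff₀ hφ, add_mul, div_mul_cancel₀ _ hφ.ne']
        refine h1.trans ?_
        rw [tot_pow hb (by omega), ← hρdef]
        apply le_of_eq
        field_simp
      have h4' : 0 ≤ JC b p q / ((b ^ q).totient : ℝ) := by positivity
      have h5 : mq b p * mq b q ≤ K4 ^ 2 * (Real.log p / p) ^ 2 := by
        calc mq b p * mq b q ≤ (K4 * (Real.log p / p)) * (K4 * (Real.log q / q)) :=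
              mul_le_mul h2 h3 hm2 (by positivity)
          _ ≤ (K4 * (Real.log p / p)) * (K4 * (Real.log p / p)) := by
              apply mul_le_mul_of_nonneg_left _ (by positivity)
              exact mul_le_mul_of_nonneg_left (hanti p q (by omega) hpq.le) hK4.le
          _ = _ := by ring
      have h5' : 0 ≤ mq b p * mq b q := mul_nonneg hm1 hm2
      have h6 : ((b : ℝ) ^ (q - p))⁻¹ * mq b p ≤ K4 * (((b : ℝ) ^ (q - p))⁻¹ * (Real.log p / p)) := by
        calc ((b : ℝ) ^ (q - p))⁻¹ * mq b p ≤ ((b : ℝ) ^ (q - p))⁻¹ * (K4 * (Real.log p / p)) :=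
              mul_le_mul_of_nonneg_left h2 (by positivity)
          _ = _ := by ring
      have h7 : 0 ≤ ((b : ℝ) ^ (q - p))⁻¹ * (Real.log p / p) := mul_nonneg (by positivity) hwp
      have h8 : 0 ≤ (Real.log p / p) ^ 2 := sq_nonneg _
      have hKK1 : K3 / ρ + K4 ^ 2 ≤ K := by
        rw [hK]
        have : 0 < K1 / ρ := by positivity
        have : 0 < K2 / ρ := by positivity
        nlinarith [sq_nonneg K4]
      have hKK2 : K4 ≤ K := by
        rw [hK]
        have : 0 < K1 / ρ := by positivity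
        have : 0 < K2 / ρ := by positivity
        have : 0 < K3 / ρ := by positivity
        nlinarith [sq_nonneg K4]
      calc |JC b p q / ((b ^ q).totient : ℝ) - mq b p * mq b q| ≤
          JC b p q / ((b ^ q).totient : ℝ) + mq b p * mq b q := by
            rw [abs_le]; constructor <;> linarith
        _ ≤ K4 * (((b : ℝ) ^ (q - p))⁻¹ * (Real.log p / p)) +
            (K3 / ρ + K4 ^ 2) * (Real.log p / p) ^ 2 := by linarith
        _ ≤ K * (((b : ℝ) ^ (q - p))⁻¹ * (Real.log p / p)) + K * (Real.log p / p) ^ 2 :=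
            add_le_add (mul_le_mul_of_nonneg_right hKK2 h7) (mul_le_mul_of_nonneg_right hKK1 h8)
        _ = _ := by ring)
  refine ⟨κ, C, hκ, hC, P', hP3', fun q hq T hT => ?_⟩
  refine le_trans (le_of_eq ?_) (hrow q hq T hT)
  refine Finset.sum_congr rfl fun p hp => ?_
  have hp1 : 1 ≤ p := (hT p hp).1.pos
  simp only [hJ]
  rw [if_pos hp1]

section

variable {Ω : Type*} [MeasurableSpace Ω] {μ : Measure Ω} [IsProbabilityMeasure μ] {b : ℕ} {r : ℕ → Ω → ℕ}

/-- **The last digits form a system.** -/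
theorem sys_low (hb : 2 ≤ b) (hr : Low b μ r) :
    Sys μ (fun p x => rpi p (r p x)) (fun p _ => mq b p)
      (fun _ => Real.exp Real.eulerMascheroniConstant / Real.log b) := by
  obtain ⟨K1, hK1, h1⟩ := mq_rate hb
  obtain ⟨P1, hP1⟩ := eventually_atTop.1 h1
  obtain ⟨K2, hK2, h2⟩ := mq_le hb
  obtain ⟨P2, hP2⟩ := eventually_atTop.1 h2
  obtain ⟨κ, C, hκ, hC, P, hP3, hrow⟩ := CO_rows hb
  have hlb0 : 0 < Real.log b := Real.log_pos (by exact_mod_cast hb)
  have hc0 : 0 < Real.exp Real.eulerMascheroniConstant / Real.log b := by positivity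
  refine ⟨fun q => (measurable_from_nat (f := rpi q)).comp (hr.meas q), fun q => measurable_const,
    fun q x => ?_, fun q _ => mq_nonneg b q, fun q _ => ?_, ⟨K1, hK1.le, P1, ?_⟩,
    ⟨_, _, hc0, Eventually.of_forall fun x => ⟨le_rfl, le_rfl⟩⟩, ⟨κ, C + K2, hκ, by positivity, P + P2, by omega, ?_, ?_⟩,
    ⟨K2, hK2.le, P2 + 1, fun q hq _ => ?_⟩⟩
  · unfold rpi
    split_ifs
    · exact Or.inr rfl
    · exact Or.inl rfl
  · rcases Nat.eq_zero_or_pos q with h | h
    · rw [h]
      unfold mq AA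
      simp
    · exact mq_le_one hb h
  · refine Eventually.of_forall fun x q hq _ => ?_
    unfold wt
    rw [mul_one_div]
    exact hP1 q hq
  · intro q hq hqp
    have h3 := Gc_diag hr hb q hqp.one_lt.le
    unfold Gc at h3
    simp only [if_pos hqp] at h3
    refine h3.trans ((hP2 q (by omega)).trans ?_)
    unfold wt
    exact mul_le_mul_of_nonneg_right (by linarith) (wt_nonneg q)
  · intro q hq hqp T hT
    have h3 := hrow q (by omega) T (fun p hp => ⟨(hT p hp).1, by have := (hT p hp).2.1; omega, (hT p hp).2.2⟩)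
    have h4 : ∀ p ∈ T, |∫ x, (rpi p (r p x) - mq b p) * (rpi q (r q x) - mq b q) ∂μ| ≤ |CO b p q| := by
      intro p hp
      have h5 := Gc_prod hr hb (hT p hp).1 (hT p hp).2.2
      unfold Gc at h5
      simp only [if_pos (hT p hp).1, if_pos hqp] at h5
      exact h5
    refine (Finset.sum_le_sum h4).trans (h3.trans ?_)
    unfold wt
    refine mul_le_mul_of_nonneg_right (by linarith) ?_
    have h6 : 0 ≤ ∑ p ∈ T.filter (fun p : ℕ => κ * q / Real.log q < (p : ℝ)), Real.log p / (p : ℝ) :=
      Finset.sum_nonneg fun p _ => wt_nonneg p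
    exact mul_nonneg (wt_nonneg q) (by linarith)
  · have h3 := hr.integral hb (n := q) (by omega) (fun m => rpi q m)
    rw [h3, sum_UU_rpi hb, mul_div_assoc, div_self (tot_pow_pos hb q).ne', mul_one]
    exact hP2 q (by omega)

/-- the law for reduced residues -/
theorem pt_low (hb : 2 ≤ b) (hr : Low b μ r) (S : Set ℕ) : ∀ᵐ x ∂μ,
    Pt (fun p => r p x) (Real.exp Real.eulerMascheroniConstant / Real.log b) S :=
  (sys_low hb hr).pt (s := fun x p => r p x) (Eventually.of_forall fun x => ⟨0, fun p _ _ => rfl⟩) S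

end

end Pool.Agent.H92.Ld
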